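import Mathlib
import Pool.Agent.Q22.MM.Low

/-!
# The lower bound `B (log B) ^ r` for complete intersections which are linear in one factor

Let `X` be a complete intersection of `k ≥ 1` divisors of types `(d i 0, …, d i (r-1), 1)`, `i < k`,
in the product `ℙ^(m 0 - 1) × ⋯ × ℙ^(m (r-1) - 1) × ℙ^(N-1)` of `r + 1 ≥ 2` projective spaces over the
rational numbers, where `m s ≥ 2`, `N ≥ k + 2` and `∑ i, d i s < m s` for all `s`. The anticanonical
class is `(m 0 - ∑ d i 0, …, m (r-1) - ∑ d i (r-1), N - k)`; if `X` is smooth of dimension `≥ 3` and all
`d i s ≥ 1`, then `X` is a Fano variety with geometric Picard number `r + 1` (Lefschetz), and the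
conjectured order of magnitude is `B (log B) ^ r`. The theorem: this is a lower bound on every dense
open subset.

* The coordinates `x` of the first `r` factors are indexed by the pairs `⟨s, l⟩`, `l < m s`; `blk x s`
  is the vector of the coordinates of the factor `s`.
* `F i j`: polynomials with integer coefficients in `x` which are homogeneous of multidegree `d i`; the
  equations of `X` are `∑ j, F i j (x) y_j = 0` for all `i`, i.e. `FM F x *ᵥ y = 0`.
* `G` is a polynomial with integer coefficients in the coordinates of `x` and `y`; `evz G (two x y)` is
  its value, and `InV F G x y`: the point is on `X`, the `k` equations in `y` are linearly independent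
  at `x`, and `G` does not vanish. It is assumed that there is such a complex point. (For smooth `X`
  every dense open subset contains the set of these points for some multihomogeneous `G`.)
* `Rep v`: `v` is the normalised primitive integer representative of a rational point of a projective
  space (greatest common divisor of the coordinates `1`, first nonzero coordinate positive); `ht v` is
  its height, the maximum of the absolute values of the coordinates.
* `Pts F d G B` is the set of the rational points with `InV` and anticanonical height at most `B`; the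
  height is `∏ s, H(x_s) ^ (m s - ∑ i, d i s) * H(y) ^ (N - k)`.

The lemmas on the number of primitive integer vectors in the kernel of an integer matrix are from the
starting files `H548/BK`, with the sizes of the rows made independent.
-/

set_option autoImplicit false

namespace Pool.Agent.Results.MP_1acd66_nt.LinearInOneFactorLowerOrder

open Pool.Agent.Q22.MM

theorem result {k N r : ℕ} (_hk : 1 ≤ k) (_hr : 1 ≤ r) (m : Fin r → ℕ) (hm : ∀ s, 2 ≤ m s)
    (hN : k + 2 ≤ N) (F : Fin k → Fin N → MvPolynomial (Σ s : Fin r, Fin (m s)) ℤ)
    (d : Fin k → Fin r → ℕ)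
    (hF : ∀ i j, (F i j).IsWeightedHomogeneous
      (fun l : (Σ s : Fin r, Fin (m s)) => (Pi.single l.1 1 : Fin r → ℕ)) (d i))
    (hd : ∀ s, ∑ i, d i s < m s) (G : MvPolynomial ((Σ s : Fin r, Fin (m s)) ⊕ Fin N) ℤ) :
    (∀ B : ℝ, (Pts F d G B).Finite) ∧
    ((∃ (x : (Σ s : Fin r, Fin (m s)) → ℂ) (y : Fin N → ℂ), InV F G x y) →
      ∃ c B₀ : ℝ, 0 < c ∧ ∀ B : ℝ, B₀ ≤ B →
        c * B * Real.log B ^ r ≤ ((Pts F d G B).ncard : ℝ)) :=
  ⟨finite_pts hN F hd G, low hm hN hF hd⟩

end Pool.Agent.Results.MP_1acd66_nt.LinearInOneFactorLowerOrder
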